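import Pool.Agent.H64.FTM.Targets

/-!
# Row AFA of ftm_modules: the classes
-/

set_option autoImplicit false

open Matrix Pool.Agent.H64.CC Pool.Agent.H2.NL Pool.Agent.H2.KM Pool.Agent.H64.EV
open Pool.Agent.H64.EK Pool.Agent.H64.FTM

namespace Pool.Agent.H51.FTM

theorem pf_AFA (hA : T_ACT) : T_AFA := by
  intro K _ _ I _ _ o η ω A hC
  refine ⟨?_, ?_⟩
  · rintro k t ⟨t', ht', he⟩
    refine hC.congr k t' t ht' fun w hw => ?_
    obtain ⟨v, hv⟩ : ∃ v : Fin (2 * k) → I, List.ofFn v = w := by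
      refine ⟨fun i => w[i.1]'(by have := i.2; omega), ?_⟩
      refine List.ext_getElem (by simp [hw]) fun i h1 h2 => ?_
      simp
    have h := congrFun he v
    unfold ev at h
    rw [hv] at h
    exact h.symm
  · rintro k σ f ⟨t, ht, rfl⟩
    obtain ⟨-, -, -, h4⟩ := hA K I o (2 * k)
    obtain ⟨js, hjs, hj⟩ := h4 σ
    refine ⟨sws o js t, ?_, hj t⟩
    clear hj
    induction js with
    | nil => exact ht
    | cons j js ih =>
      exact hC.sw k j (sws o js t) (ih fun i hi => hjs i (List.mem_cons_of_mem _ hi))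
        (hjs j List.mem_cons_self)

end Pool.Agent.H51.FTM
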